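import Mathlib
import Pool.Agent.H916R3.CH.Canon
import Pool.Agent.Helper292.ForceCH

set_option autoImplicit false

/-!
# Under CH some isometric embedding of `C(ℕ*)` into itself is nowhere canonizable

Let `W` be the space of the weak* limits of sequences of `Q = C(ℕ*)` in the bidual of `Q`, and
`J : Q → W` the canonical embedding.

* There is no bounded linear map `R : W → Q` with `R ∘ J = id` (in ZFC).
* Under CH there is an isometric embedding `j : W → Q` (in ZFC every normed space with at most `ℵ₁`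
  elements embeds isometrically in `Q`, and `W` has at most `𝔠` elements).
* `T = j ∘ J` is the embedding. If `T(f*) = r (f* ∘ ψ)` on `F` for all `A`-supported `f`, then
  restricting to `F` and composing with `ψ⁻¹` gives a bounded left inverse of `T ∘ S`, where
  `S : Q → Q` is the extension by zero along a bijection of `ℕ` with `A`; composed with `j ∘ S**` it
  would be a bounded retraction of `W` onto `Q`.
-/

namespace Pool.Agent.Results.MP_f07f3c_an.ConsistentlyFails

open scoped BoundedContinuousFunction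
open Pool.Agent.Helper292.ForceCH (OmegaOnePreserved CHHolds)

/-- `ℕ* = βℕ ∖ ℕ`. -/
def Nstar : Set (StoneCech ℕ) := (Set.range (stoneCechUnit : ℕ → StoneCech ℕ))ᶜ

/-- The closed subset `A*` of `ℕ*`. -/
def star (A : Set ℕ) : Set Nstar :=
  {x : Nstar | (x.1 : StoneCech ℕ) ∈ closure ((stoneCechUnit : ℕ → StoneCech ℕ) '' A)}

/-- The restriction to `ℕ*` of a continuous function on `βℕ`. These functions are the `f*` for
`f ∈ ℓ_∞`: the function `G` is the continuous extension of `f n = G (stoneCechUnit n)`. -/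
noncomputable def restr (G : C(StoneCech ℕ, ℝ)) : Nstar →ᵇ ℝ :=
  (BoundedContinuousFunction.mkOfCompact G).compContinuous
    ⟨Subtype.val, continuous_subtype_val⟩

/-- The operator `T` on `C(ℕ*)` is somewhere canonizable along a homeomorphism: there are an
infinite `A ⊆ ℕ`, a closed `F ⊆ ℕ*`, a homeomorphism `ψ : F → A*` and `r ≠ 0` with
`T(f*) = r (f* ∘ ψ)` on `F` for every `A`-supported `f`. -/
def SomewhereCanonizable (T : (Nstar →ᵇ ℝ) →L[ℝ] (Nstar →ᵇ ℝ)) : Prop :=
  ∃ (A : Set ℕ) (F : Set Nstar) (r : ℝ), A.Infinite ∧ IsClosed F ∧ r ≠ 0 ∧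
    ∃ ψ : F ≃ₜ star A, ∀ G : C(StoneCech ℕ, ℝ), (∀ n : ℕ, n ∉ A → G (stoneCechUnit n) = 0) →
      ∀ x : F, T (restr G) x.1 = r * restr G (ψ x).1

/-- (A) There is a notion of forcing all of whose conditions force that `ω₁` is preserved and that
the continuum hypothesis holds. (B) If the continuum hypothesis holds, then there is a linear
isometric embedding `T` of `C(ℕ*)` into itself which is not somewhere canonizable. -/
theorem result :
    (∃ (P : Type) (_ : Preorder P), Nonempty P ∧
      ∀ p : P, p ∈ OmegaOnePreserved P ∧ p ∈ CHHolds P) ∧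
    (Cardinal.aleph.{0} 1 = Cardinal.continuum →
      ∃ T : (Nstar →ᵇ ℝ) →L[ℝ] (Nstar →ᵇ ℝ), (∀ g, ‖T g‖ = ‖g‖) ∧ ¬ SomewhereCanonizable T) := by
  refine ⟨?_, fun hCH => ?_⟩
  · obtain ⟨P, hP, hne, h⟩ := Pool.Agent.Helper292.ForceCH.exists_forcing
    exact ⟨P, hP, hne, fun p => ⟨(h p).1, (h p).2.2⟩⟩
  · obtain ⟨T, hT⟩ := Pool.Agent.H916R3.CH.canon hCH
    exact ⟨T.toContinuousLinearMap, fun g => T.norm_map g, hT⟩

end Pool.Agent.Results.MP_f07f3c_an.ConsistentlyFails
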